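import Pool.Agent.MP_b9875a_co.H99.Spec2

/-! Row MENGER: Menger's theorem with absorbers, named arcs. -/

namespace Pool.Agent.MP_b9875a_co.H70

open Finset Pool.Agent.MP_b9875a_co.H99.LN

variable {V α ι : Type} [DecidableEq V] [DecidableEq α]

/-- number of arcs that leave `U` -/
def cut (tl hd : α → V) (A : Finset α) (U : Finset V) : ℕ :=
  (A.filter (fun a => tl a ∈ U ∧ hd a ∉ U)).card

/-- the conclusion -/
def Routed (tl hd : α → V) (A : Finset α) (T : Finset ι) (s : ι → V) (c : V → ℕ) : Prop :=
  ∃ (e : ι → V) (P : ι → Finset α),
    (∀ i ∈ T, P i ⊆ A ∧ NR tl hd (fun a => a ∈ P i) (s i) (e i) ∧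
      ∀ v, cnt (P i) tl v + (if e i = v then 1 else 0) =
        cnt (P i) hd v + (if s i = v then 1 else 0)) ∧
    (∀ i ∈ T, ∀ j ∈ T, i ≠ j → Disjoint (P i) (P j)) ∧
    ∀ v, cnt T e v ≤ c v

variable (tl hd : α → V)

omit [DecidableEq α] in
theorem cut_sub (A : Finset α) (R R' : Finset V) :
    cut tl hd A (R ∩ R') + cut tl hd A (R ∪ R') ≤ cut tl hd A R + cut tl hd A R' := by
  unfold cut
  simp only [card_filter, ← sum_add_distrib]
  refine sum_le_sum fun e _ => ?_
  by_cases h1 : tl e ∈ R <;> by_cases h2 : tl e ∈ R' <;> by_cases h3 : hd e ∈ R <;>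
    by_cases h4 : hd e ∈ R' <;> simp [h1, h2, h3, h4]

theorem tok_mod (T : Finset ι) (s : ι → V) (R R' : Finset V) :
    (T.filter fun i => s i ∈ R ∩ R').card + (T.filter fun i => s i ∈ R ∪ R').card =
      (T.filter fun i => s i ∈ R).card + (T.filter fun i => s i ∈ R').card := by
  simp only [card_filter, ← sum_add_distrib]
  refine sum_congr rfl fun i _ => ?_
  by_cases h1 : s i ∈ R <;> by_cases h2 : s i ∈ R' <;> simp [h1, h2]

theorem tok_update [DecidableEq ι] (T : Finset ι) (s : ι → V) {i : ι} (hi : i ∈ T) (w : V)
    (R : Finset V) :
    (T.filter fun j => Function.update s i w j ∈ R).card + (if s i ∈ R then 1 else 0) =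
      (T.filter fun j => s j ∈ R).card + (if w ∈ R then 1 else 0) := by
  simp only [card_filter]
  rw [← add_sum_erase _ _ hi, ← add_sum_erase T _ hi]
  have : ∑ x ∈ T.erase i, (if Function.update s i w x ∈ R then 1 else 0) =
      ∑ x ∈ T.erase i, (if s x ∈ R then 1 else 0) :=
    sum_congr rfl fun x hx => by rw [Function.update_of_ne (mem_erase.1 hx).1]
  rw [this, Function.update_self]
  omega

theorem cut_erase (A : Finset α) {e : α} (he : e ∈ A) (R : Finset V) :
    cut tl hd (A.erase e) R + (if tl e ∈ R ∧ hd e ∉ R then 1 else 0) = cut tl hd A R := by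
  unfold cut
  simp only [card_filter]
  rw [← add_sum_erase A _ he, add_comm]

theorem cnt_insert {P : Finset α} {a : α} (ha : a ∉ P) (f : α → V) (v : V) :
    cnt (insert a P) f v = cnt P f v + if f a = v then 1 else 0 := by
  unfold cnt
  simp only [card_filter]
  rw [sum_insert ha, add_comm]

theorem flow_aux [Fintype V] (n : ℕ) : ∀ (A : Finset α) (T : Finset ι) (s : ι → V)
    (c : V → ℕ), A.card + T.card = n →
    (∀ U : Finset V, (T.filter (fun i => s i ∈ U)).card ≤ cut tl hd A U + ∑ v ∈ U, c v) →
    Routed tl hd A T s c := by
  classical
  induction n using Nat.strong_induction_on with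
  | _ n ih =>
    intro A T s c hn hok
    rcases T.eq_empty_or_nonempty with rfl | ⟨i, hi⟩
    · exact ⟨s, fun _ => ∅, by simp, by simp, by simp [cnt]⟩
    by_cases hc : 1 ≤ c (s i)
    · have hlt : A.card + (T.erase i).card < n := by
        have := card_erase_lt_of_mem hi
        omega
      obtain ⟨e, P, h1, h2, h3⟩ := ih _ hlt A (T.erase i) s
        (Function.update c (s i) (c (s i) - 1)) rfl (by
          intro U
          have a1 := hok U
          rw [card_filter, ← add_sum_erase _ _ hi, ← card_filter] at a1
          by_cases hU : s i ∈ U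
          · rw [sum_update_of_mem hU, sdiff_singleton_eq_erase]
            rw [if_pos hU, ← add_sum_erase _ _ hU] at a1
            omega
          · rw [sum_update_of_notMem hU]
            omega)
      refine ⟨Function.update e i (s i), Function.update P i ∅, ?_, ?_, ?_⟩
      · intro j hj
        by_cases h : j = i
        · subst h
          simp only [Function.update_self]
          exact ⟨empty_subset _, Relation.ReflTransGen.refl, fun v => by simp [cnt]⟩
        · simp only [Function.update_of_ne h]
          exact h1 j (mem_erase.2 ⟨h, hj⟩)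
      · intro a ha b hb hab
        by_cases h : a = i
        · subst h
          simp
        · by_cases h' : b = i
          · subst h'
            simp
          · simp only [Function.update_of_ne h, Function.update_of_ne h']
            exact h2 a (mem_erase.2 ⟨h, ha⟩) b (mem_erase.2 ⟨h', hb⟩) hab
      · intro v
        have a1 := h3 v
        unfold cnt at a1 ⊢
        rw [card_filter, ← add_sum_erase _ _ hi, Function.update_self,
          sum_congr rfl fun x hx => by rw [Function.update_of_ne (mem_erase.1 hx).1],
          ← card_filter]
        by_cases hv : s i = v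
        · subst hv
          rw [Function.update_self] at a1
          rw [if_pos rfl]
          omega
        · rw [Function.update_of_ne (Ne.symm hv)] at a1
          rw [if_neg hv]
          omega
    · have hex : ((univ : Finset (Finset V)).filter fun R => s i ∉ R ∧
          cut tl hd A R + ∑ v ∈ R, c v ≤ (T.filter fun j => s j ∈ R).card).Nonempty :=
        ⟨∅, by simp [cut]⟩
      obtain ⟨C, hC, hCmax⟩ := exists_max_image _ Finset.card hex
      simp only [mem_filter, mem_univ, true_and] at hC hCmax
      obtain ⟨hiC, hCc⟩ := hC
      have hsub : ∀ R : Finset V, s i ∉ R →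
          cut tl hd A R + ∑ v ∈ R, c v ≤ (T.filter fun j => s j ∈ R).card → R ⊆ C := by
        intro R hiR hRc
        have h1 := cut_sub tl hd A R C
        have h2 := tok_mod T s R C
        have h3 := hok (R ∩ C)
        have h6 : ∑ v ∈ R ∪ C, c v + ∑ v ∈ R ∩ C, c v = ∑ v ∈ R, c v + ∑ v ∈ C, c v :=
          sum_union_inter
        have h4 := hCmax (R ∪ C) ⟨by simp [hiR, hiC], by omega⟩
        have h5 : C = R ∪ C := eq_of_subset_of_card_le subset_union_right h4
        rw [h5]
        exact subset_union_left
      have h1 := hok (insert (s i) C)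
      rw [sum_insert hiC] at h1
      have h2 : (T.filter fun j => s j ∈ C).card <
          (T.filter fun j => s j ∈ insert (s i) C).card := by
        apply card_lt_card
        refine ⟨fun x hx => ?_, fun h => ?_⟩
        · rw [mem_filter] at hx ⊢
          exact ⟨hx.1, mem_insert_of_mem hx.2⟩
        · have : i ∈ T.filter (fun x => s x ∈ insert (s i) C) := by simp [hi]
          exact hiC (mem_filter.1 (h this)).2
      have h3 : ∃ g ∈ A, tl g = s i ∧ hd g ∉ C := by
        by_contra hcon
        push Not at hcon
        have : cut tl hd A (insert (s i) C) ≤ cut tl hd A C := by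
          refine card_le_card fun e he => ?_
          simp only [mem_filter, mem_insert, not_or] at he ⊢
          obtain ⟨g1, g2, g3, g4⟩ := he
          exact ⟨g1, g2.resolve_left fun g => g4 (hcon e g1 g), g4⟩
        omega
      obtain ⟨g, hg, hgt, hwC⟩ := h3
      have hlt : (A.erase g).card + T.card < n := by
        have := card_erase_lt_of_mem hg
        omega
      obtain ⟨e, P, k1, k2, k3⟩ := ih _ hlt (A.erase g) T (Function.update s i (hd g)) c rfl (by
        intro R
        have a1 := tok_update T s hi (hd g) R
        have a2 := hok R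
        have a3 := cut_erase tl hd A hg R
        rw [hgt] at a3
        by_cases b1 : s i ∈ R <;> by_cases b2 : hd g ∈ R <;>
          simp only [b1, b2, if_true, if_false, not_true, not_false_iff, and_true, and_false,
            and_self] at a1 a3
        · omega
        · omega
        · have hnc : ¬ cut tl hd A R + ∑ v ∈ R, c v ≤ (T.filter fun j => s j ∈ R).card :=
            fun h => hwC (hsub R b1 h b2)
          omega
        · omega)
      have hne : ∀ j ∈ T, g ∉ P j := fun j hj h => by simpa using (k1 j hj).1 h
      refine ⟨e, Function.update P i (insert g (P i)), ?_, ?_, k3⟩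
      · intro j hj
        by_cases h : j = i
        · subst h
          obtain ⟨q1, q2, q3⟩ := k1 j hj
          rw [Function.update_self] at q2 q3 ⊢
          refine ⟨insert_subset hg (q1.trans (erase_subset _ _)), ?_, fun v => ?_⟩
          · refine Relation.ReflTransGen.head ⟨g, mem_insert_self _ _, hgt, rfl⟩
              (Relation.ReflTransGen.mono ?_ _ _ q2)
            rintro x y ⟨a, ha, hxy⟩
            exact ⟨a, mem_insert_of_mem ha, hxy⟩
          · have := q3 v
            rw [cnt_insert (hne j hj), cnt_insert (hne j hj), hgt]
            omega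
        · obtain ⟨q1, q2, q3⟩ := k1 j hj
          rw [Function.update_of_ne h] at q2 q3 ⊢
          exact ⟨q1.trans (erase_subset _ _), q2, q3⟩
      · intro a ha b hb hab
        by_cases h : a = i
        · subst h
          rw [Function.update_self, Function.update_of_ne hab.symm, disjoint_insert_left]
          exact ⟨hne b hb, k2 a ha b hb hab⟩
        · rw [Function.update_of_ne h]
          by_cases h' : b = i
          · subst h'
            rw [Function.update_self, disjoint_insert_right]
            exact ⟨hne a ha, k2 a ha b hb hab⟩
          · rw [Function.update_of_ne h']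
            exact k2 a ha b hb hab

theorem menger : MengerStmt := fun _ _ _ _ _ _ tl hd A T s c h =>
  flow_aux tl hd _ A T s c rfl h

end Pool.Agent.MP_b9875a_co.H70
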